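import Pool.Agent.helper69.MB.Core

/-!
# Multipliers near products of at most four given integers

Five groups of linear forms `x_i d_(M i + j) n + 1`, `0 ≤ i ≤ 4`, `0 ≤ j < M`, where
`x_i = m_1 ... m_i` and `d_0 ∣ d_1 ∣ ...` is strictly increasing. Pairs inside the groups make up
less than `1/4` of all pairs, so some pair from two different groups is good, and its ratio is the
integer `m_(i+1) ... m_i' d_s / d_r` with `r < s`.
-/

noncomputable section

namespace Pool.Agent.helper92.BP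

open Finset Pool.Agent.helper69.MB

/-- Coefficients of the forms. -/
def bb (m d : ℕ → ℕ) (M : ℕ) (q : ℕ × ℕ) : ℕ := (∏ k ∈ range q.1, m k) * d (M * q.1 + q.2)

lemma chain_dvd {d : ℕ → ℕ} (hd : ∀ r, d r ∣ d (r + 1)) {r s : ℕ} (h : r ≤ s) : d r ∣ d s := by
  induction h with
  | refl => exact dvd_rfl
  | step _ ih => exact ih.trans (hd _)

lemma exp_lt {M i i' j j' : ℕ} (hj : j < M) (h : i < i') : M * i + j < M * i' + j' := by
  have h1 : M * (i + 1) ≤ M * i' := Nat.mul_le_mul_left M h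
  have h2 : M * (i + 1) = M * i + M := by ring
  omega

section

variable {m d : ℕ → ℕ} (hm : ∀ k, 0 < m k) (h0 : 0 < d 0) (hs : StrictMono d)
  (hd : ∀ r, d r ∣ d (r + 1)) {M : ℕ}

include h0 hs in
lemma d_pos (r : ℕ) : 0 < d r := lt_of_lt_of_le h0 (hs.monotone (Nat.zero_le r))

include hm h0 hs in
lemma bb_pos (q : ℕ × ℕ) : 0 < bb m d M q :=
  Nat.mul_pos (Finset.prod_pos fun k _ => hm k) (d_pos h0 hs _)

include h0 hs hd in
lemma bb_ratio {q q' : ℕ × ℕ} (hq : q.2 < M) (h : q.1 < q'.1) :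
    bb m d M q' = bb m d M q *
      ((∏ k ∈ Ico q.1 q'.1, m k) * (d (M * q'.1 + q'.2) / d (M * q.1 + q.2))) := by
  have hlt : M * q.1 + q.2 < M * q'.1 + q'.2 := exp_lt hq h
  obtain ⟨w, hw⟩ := chain_dvd hd hlt.le
  rw [hw, Nat.mul_div_cancel_left _ (d_pos h0 hs _)]
  unfold bb
  rw [hw, ← Finset.prod_range_mul_prod_Ico m h.le]
  ring

include hm hs in
lemma bb_lt {q q' : ℕ × ℕ} (hq : q.2 < M) (h : q.1 < q'.1) : bb m d M q < bb m d M q' := by
  have hlt : M * q.1 + q.2 < M * q'.1 + q'.2 := exp_lt hq h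
  have h1 : (∏ k ∈ range q.1, m k) ≤ ∏ k ∈ range q'.1, m k :=
    Finset.prod_le_prod_of_subset_of_one_le' (Finset.range_mono h.le) fun k _ _ => hm k
  have h2 : 0 < ∏ k ∈ range q'.1, m k := Finset.prod_pos fun k _ => hm k
  unfold bb
  calc (∏ k ∈ range q.1, m k) * d (M * q.1 + q.2)
      ≤ (∏ k ∈ range q'.1, m k) * d (M * q.1 + q.2) := Nat.mul_le_mul_right _ h1
    _ < (∏ k ∈ range q'.1, m k) * d (M * q'.1 + q'.2) := Nat.mul_lt_mul_of_pos_left (hs hlt) h2

include hm h0 hs in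
lemma bb_inj : Set.InjOn (bb m d M) (↑(range 5 ×ˢ range M) : Set (ℕ × ℕ)) := by
  rintro ⟨i, j⟩ h ⟨i', j'⟩ h' e
  rw [Finset.mem_coe, Finset.mem_product, Finset.mem_range, Finset.mem_range] at h h'
  rcases lt_trichotomy i i' with hi | hi | hi
  · exact absurd e (bb_lt (q := (i, j)) (q' := (i', j')) hm hs h.2 hi).ne
  · subst hi
    have h2 : 0 < ∏ k ∈ range i, m k := Finset.prod_pos fun k _ => hm k
    have e2 : d (M * i + j) = d (M * i + j') := Nat.eq_of_mul_eq_mul_left h2 e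
    have e3 := hs.injective e2
    have e4 : j = j' := by omega
    rw [e4]
  · exact absurd e (bb_lt (q := (i', j')) (q' := (i, j)) hm hs h'.2 hi).ne'

end

open Classical in
/-- A good pair from two different groups; all indices are below an absolute bound. -/
theorem block_one (hPD : PairDensity) : ∃ E : ℕ, ∀ m d : ℕ → ℕ, (∀ k, 0 < m k) → 0 < d 0 →
    StrictMono d → (∀ r, d r ∣ d (r + 1)) → ∃ i j r s : ℕ, i < j ∧ j ≤ 4 ∧ r < s ∧ s ≤ E ∧
      Good ((∏ k ∈ Ico i j, m k) * (d s / d r)) := by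
  obtain ⟨K, hK⟩ := hPD (1 / 100) (by norm_num)
  set M := K + 1 with hM
  refine ⟨5 * M, fun m d hm h0 hs hd => ?_⟩
  set B : Finset ℕ := (range 5 ×ˢ range M).image (bb m d M) with hB
  have hBcard : B.card = 5 * M := by
    rw [hB, Finset.card_image_of_injOn (bb_inj hm h0 hs), Finset.card_product, Finset.card_range,
      Finset.card_range]
  by_contra hno
  push Not at hno
  have hbad : ∀ q ∈ range 5 ×ˢ range M, ∀ q' ∈ range 5 ×ˢ range M, q.1 < q'.1 →
      ¬ GP (bb m d M q) (bb m d M q') := by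
    intro q hq q' hq' hlt hG
    rw [Finset.mem_product, Finset.mem_range, Finset.mem_range] at hq hq'
    have hb : M * q'.1 + q'.2 ≤ 5 * M := by
      have h1 : M * (q'.1 + 1) ≤ M * 5 := Nat.mul_le_mul_left M (by omega)
      have h2 : M * (q'.1 + 1) = M * q'.1 + M := by ring
      omega
    refine hno q.1 q'.1 (M * q.1 + q.2) (M * q'.1 + q'.2) hlt (by omega) (exp_lt hq.2 hlt) hb ?_
    exact good_of_GP (bb_pos (M := M) hm h0 hs q) (bb_ratio h0 hs hd hq.2 hlt) hG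
  have h1 := hK B (by
      intro b hb
      obtain ⟨q, _, rfl⟩ := Finset.mem_image.1 hb
      exact bb_pos hm h0 hs q) (by rw [hBcard]; omega)
    ((B ×ˢ B).filter (fun q => q.1 ≠ q.2 ∧ GP q.1 q.2)) (by
      intro q
      rw [Finset.mem_filter, Finset.mem_product])
  have h2 : ((B ×ˢ B).filter (fun q => q.1 ≠ q.2 ∧ GP q.1 q.2)) ⊆
      (range 5 ×ˢ (range M ×ˢ range M)).image
        (fun z => (bb m d M (z.1, z.2.1), bb m d M (z.1, z.2.2))) := by
    rintro ⟨b, b'⟩ hq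
    rw [Finset.mem_filter, Finset.mem_product] at hq
    obtain ⟨⟨hb, hb'⟩, -, hG⟩ := hq
    obtain ⟨⟨i, j⟩, hq, rfl⟩ := Finset.mem_image.1 hb
    obtain ⟨⟨i', j'⟩, hq', rfl⟩ := Finset.mem_image.1 hb'
    have hii : i = i' := by
      rcases lt_trichotomy i i' with h | h | h
      · exact absurd hG (hbad _ hq _ hq' h)
      · exact h
      · exact absurd hG.symm (hbad _ hq' _ hq h)
    subst hii
    rw [Finset.mem_product] at hq hq'
    refine Finset.mem_image.2 ⟨(i, (j, j')), ?_, rfl⟩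
    rw [Finset.mem_product, Finset.mem_product]
    exact ⟨hq.1, hq.2, hq'.2⟩
  have h3 : (((B ×ˢ B).filter (fun q => q.1 ≠ q.2 ∧ GP q.1 q.2)).card : ℝ) ≤ 5 * (M : ℝ) ^ 2 := by
    have h4 := (Finset.card_le_card h2).trans Finset.card_image_le
    rw [Finset.card_product, Finset.card_product, Finset.card_range, Finset.card_range] at h4
    have h5 : (((B ×ˢ B).filter (fun q => q.1 ≠ q.2 ∧ GP q.1 q.2)).card : ℝ) ≤
        ((5 * (M * M) : ℕ) : ℝ) := by exact_mod_cast h4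
    refine h5.trans (le_of_eq ?_)
    push_cast
    ring
  rw [hBcard] at h1
  have h6 : (0 : ℝ) < (M : ℝ) := by
    rw [hM]
    positivity
  have h7 : (0 : ℝ) < (M : ℝ) ^ 2 := by positivity
  push_cast at h1
  nlinarith [h1, h3, h7]

/-- The same with `i, j` fixed and `r` arbitrarily large. -/
theorem block (hPD : PairDensity) : ∃ E : ℕ, ∀ m d : ℕ → ℕ, (∀ k, 0 < m k) → 0 < d 0 →
    StrictMono d → (∀ r, d r ∣ d (r + 1)) →
    ∃ i j : ℕ, i < j ∧ j ≤ 4 ∧ ∀ R : ℕ, ∃ r s : ℕ, R ≤ r ∧ r < s ∧ s ≤ r + E ∧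
      Good ((∏ k ∈ Ico i j, m k) * (d s / d r)) := by
  obtain ⟨E, hE⟩ := block_one hPD
  refine ⟨E, fun m d hm h0 hs hd => ?_⟩
  by_contra hno
  push Not at hno
  have h1 : ∀ i j : ℕ, ∃ R : ℕ, i < j → j ≤ 4 → ∀ r s : ℕ, R ≤ r → r < s → s ≤ r + E →
      ¬ Good ((∏ k ∈ Ico i j, m k) * (d s / d r)) := by
    intro i j
    by_cases h : i < j ∧ j ≤ 4
    · obtain ⟨R, hR⟩ := hno i j h.1 h.2
      exact ⟨R, fun _ _ => hR⟩
    · exact ⟨0, fun h1 h2 => absurd ⟨h1, h2⟩ h⟩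
  choose f hf using h1
  set R := ∑ i ∈ range 5, ∑ j ∈ range 5, f i j with hR
  have hle : ∀ i j, i < 5 → j < 5 → f i j ≤ R := by
    intro i j hi hj
    calc f i j ≤ ∑ j ∈ range 5, f i j :=
          Finset.single_le_sum (f := fun j => f i j) (fun _ _ => Nat.zero_le _)
            (Finset.mem_range.2 hj)
      _ ≤ R := Finset.single_le_sum (f := fun i => ∑ j ∈ range 5, f i j)
            (fun _ _ => Nat.zero_le _) (Finset.mem_range.2 hi)
  obtain ⟨i, j, r, s, hij, hj, hrs, hsE, hG⟩ := hE m (fun r => d (R + r)) hm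
    (d_pos h0 hs _) (fun a b hab => hs (by omega)) (fun r => hd (R + r))
  exact hf i j hij hj (R + r) (R + s) ((hle i j (by omega) (by omega)).trans (Nat.le_add_right _ _))
    (by omega) (by omega) hG

/-- The form used in the hand-in. -/
theorem main (hPD : PairDensity) : ∃ E : ℕ, ∀ m : ℕ → ℕ, (∀ k, 1 ≤ k → k ≤ 4 → 0 < m k) →
    ∀ d : ℕ → ℕ, 0 < d 0 → StrictMono d → (∀ r, d r ∣ d (r + 1)) →
    ∃ i j : ℕ, 1 ≤ i ∧ i ≤ j ∧ j ≤ 4 ∧ ∀ R : ℕ, ∃ r s : ℕ, R ≤ r ∧ r < s ∧ s ≤ r + E ∧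
      {p : ℕ | p.Prime ∧
        ((∏ k ∈ Icc i j, m k) * (d s / d r) * (p - 1) + 1).Prime}.Infinite := by
  obtain ⟨E, hE⟩ := block hPD
  refine ⟨E, fun m hm d h0 hs hd => ?_⟩
  obtain ⟨i, j, hij, hj, h⟩ := hE (fun k => if k < 4 then m (k + 1) else 1) d
    (by
      intro k
      by_cases hk : k < 4
      · simp only [hk, if_true]
        exact hm (k + 1) (by omega) (by omega)
      · simp only [hk, if_false]
        exact Nat.one_pos) h0 hs hd
  refine ⟨i + 1, j, by omega, by omega, hj, fun R => ?_⟩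
  obtain ⟨r, s, hr, hrs, hsE, hG⟩ := h R
  refine ⟨r, s, hr, hrs, hsE, ?_⟩
  have e : (∏ k ∈ Ico i j, (if k < 4 then m (k + 1) else 1)) = ∏ k ∈ Icc (i + 1) j, m k := by
    have e1 : (∏ k ∈ Ico i j, (if k < 4 then m (k + 1) else 1)) = ∏ k ∈ Ico i j, m (k + 1) := by
      refine Finset.prod_congr rfl fun k hk => ?_
      have hk2 := (Finset.mem_Ico.1 hk).2
      rw [if_pos (by omega)]
    rw [e1, Finset.prod_Ico_add' (fun k => m k) i j 1]
    refine Finset.prod_congr ?_ fun _ _ => rfl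
    ext k
    rw [Finset.mem_Ico, Finset.mem_Icc]
    omega
  rw [e] at hG
  exact hG

end Pool.Agent.helper92.BP
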