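import Pool.Agent.helper92.BP.Core
import Pool.Agent.helper69.MB.Final

/-!
# Multipliers near products of at most four given integers: conclusion
-/

namespace Pool.Agent.helper92.BP

theorem final : ∃ E : ℕ, ∀ m : ℕ → ℕ, (∀ k, 1 ≤ k → k ≤ 4 → 0 < m k) →
    ∀ d : ℕ → ℕ, 0 < d 0 → StrictMono d → (∀ r, d r ∣ d (r + 1)) →
    ∃ i j : ℕ, 1 ≤ i ∧ i ≤ j ∧ j ≤ 4 ∧ ∀ R : ℕ, ∃ r s : ℕ, R ≤ r ∧ r < s ∧ s ≤ r + E ∧
      {p : ℕ | p.Prime ∧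
        ((∏ k ∈ Finset.Icc i j, m k) * (d s / d r) * (p - 1) + 1).Prime}.Infinite :=
  main Pool.Agent.helper69.MB.pairDensity

end Pool.Agent.helper92.BP
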